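import Pool.Agent.T6.H17.EL.Main

/-!
# Bloch's conjecture for correspondences on surfaces: elliptic surfaces

Let `V` be the elliptic surface over `P^1` with the Weierstrass equation `y ^ 2 = x ^ 3 + A(t) x + B(t)`. If the
equation is minimal, `deg A ≤ 4 m`, `deg B ≤ 6 m` with `m` minimal, then `p_g(V) = m - 1`, and the forms
`t ^ a dt ∧ dx / y`, `a < p_g(V)`, are a basis of `H^0(V, K_V)` (standard, not formalised here).

Let `W` be any variety of dimension `2` and `Ω` a field of transcendence degree `2` over `ℂ` which contains
the function field of `W`, for instance an algebraic closure. A cycle `Z = ∑ m_i Z_i` of dimension `2` on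
`W × V` all of whose components dominate `W` and `V` is the same as a finite integral combination
`c = ∑ c(σ) σ` of embeddings `σ : ℂ(V) → Ω` over `ℂ`, with `Ω` algebraically closed, which is invariant under
the Galois group of `Ω` over `ℂ(W)`: `Z_i` is an orbit of embeddings with the coefficient `m_i`. The theorem
is about all `c`, with coefficients of any signs; no invariance is needed. `[Z]^* = 0` on `H^{2,0}(V)` means
that `∑ c(σ) σ^* (t ^ a dt ∧ dx / y) = 0` for all `a < p_g(V)` (`IsNull p` for `p = p_g(V)`).

The theorem: suppose that the points of `Z` over a general point of `W` lie in at most `p = p_g(V)` fibres of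
`V → P^1`; the number of the points is arbitrary. Then `[Z]^* = 0` on `H^{2,0}(V)` if and only if, for each of
these fibres `E_q`, `q = σ(t)`, the sum `P_q` of the points of `Z` in `E_q`, with their multiplicities, for the
group law of `E_q` (`fibreSum`), has coordinates which are algebraic over `ℂ(q)`.

This is the open direction of the question for all these correspondences, `W = V = X` (`[Γ]_*^{2,0} = 0` if
and only if `[Γ]^* = 0` on `H^{2,0}`, by duality and complex conjugation): the part of `Γ_*(w)` in `E_q`, of
degree `n_q`, is rationally equivalent in `E_q` to `[P_q] + (n_q - 1) [0]`, and if `P_q` is algebraic over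
`ℂ(q)` then `P_q` and the zero point move on curves in `V`, as `w` varies, and depend on a point of a curve
over `P^1`, so the correspondence factors through curves and `Γ_* = 0` on the kernel of the Albanese map
(standard, not formalised here). For `p_g(V) = 1` (elliptic K3 surfaces) the theorem is about the
correspondences over a map of the base, for instance over its identity. The components of a cycle which do not
dominate both factors have no effect on `H^{2,0}`, and act by zero on the kernel of the Albanese map.

Proof: by interpolation on `P^1` the sum vanishes on each fibre separately, if there are at most `p` of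
them. If `D` is a vector field on `W` along the fibres of `q : W ⇢ P^1`, then `P ↦ D(x(P)) / 2 y(P)` is a
homomorphism `E_q(Ω) → Ω` (the logarithmic derivative, `Pool/Agent/T6/H17/EL/Ld.lean`), so `D` is zero on the
coordinates of `P_q`, and the constants of `D` are algebraic over `ℂ(q)`.
-/

set_option autoImplicit false

open Pool.Agent.T6.H17.EL (fibreSum IsAlgebraicPoint IsNull)

namespace Pool.Agent.Results.MP_31564d_ag.EllipticSurfaces

/-- **Cycles with null trace on elliptic surfaces.** Let `K = ℂ(t, x, y)` be of transcendence degree
`2`, with `y ^ 2 = x ^ 3 + A(t) x + B(t)`, let `Ω` be an extension of `ℂ` of transcendence degree `2` and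
`c` an integral combination of embeddings of `K` in `Ω`, which lie over at most `p` points `q = σ(t)` of
the base. Then the trace of `c` is zero on the forms `t ^ a dt ∧ dx / y`, `a < p`, if and only if for
each `q` the sum of the points of `c` over `q`, in the fibre over `q`, is algebraic over `ℂ(q)`. -/
theorem result {A B : Polynomial ℂ} {K : Type} [Field K] [Algebra ℂ K]
    (hK : Algebra.trdeg ℂ K = 2) {t x y : K}
    (equation : y ^ 2 = x ^ 3 + Polynomial.aeval t A * x + Polynomial.aeval t B)
    (generated : IntermediateField.adjoin ℂ {t, x, y} = ⊤)
    {Ω : Type} [Field Ω] [Algebra ℂ Ω] (hΩ : Algebra.trdeg ℂ Ω = 2)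
    (c : (K →ₐ[ℂ] Ω) →₀ ℤ) {p : ℕ} (few : {q : Ω | ∃ σ, c σ ≠ 0 ∧ σ t = q}.ncard ≤ p) :
    IsNull p t x y c ↔ ∀ q : Ω, IsAlgebraicPoint (fibreSum A B t x y c q) := by
  classical
  refine Pool.Agent.T6.H17.EL.main hΩ hK equation generated (le_trans (le_of_eq ?_) few)
  rw [← Set.ncard_coe_finset]
  congr 1
  ext q
  rw [Finset.coe_image, Set.mem_image, Set.mem_ofPred_eq]
  constructor
  · rintro ⟨σ, hσ, h⟩
    exact ⟨σ, Finsupp.mem_support_iff.1 hσ, h⟩
  · rintro ⟨σ, hσ, h⟩
    exact ⟨σ, Finsupp.mem_support_iff.2 hσ, h⟩

end Pool.Agent.Results.MP_31564d_ag.EllipticSurfaces
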