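import Pool.Agent.T6.H17.BC.Torus

/-!
# Bloch's conjecture for correspondences on surfaces: Newton-nondegenerate complete intersections

Let `V` be a component, of dimension `2`, of a complete intersection of `q` hypersurfaces `f l = 0` in the
torus `(ℂ^*) ^ (2 + q)`, nondegenerate for their Newton polytopes (`Nondegenerate`), and let `V ⇢ V 1` be
the map to a surface given by some monomials `t l = x ^ (w l)`, of degree `b`, with `ℂ(V) = ℂ(V 1)(x ^ v)`
for a monomial `x ^ v`. Suppose that `p_g(V 1) = 0` (for instance `V 1` is rational).
The Fine interior of the Minkowski sum of the Newton polytopes contains `k` rows of width `M` if it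
contains `u + j v` and `u + j v + M (w l)`, for all `j < k` and all `l`, for some `u` (`Rows`); `x ^ u` times
the residue form is a regular canonical form for all `u` in the Fine interior.

Let `W` be any variety of dimension `2` and `Ω` an algebraically closed field of transcendence degree
`2` over `ℂ` which contains the function field of `W`. A cycle `Z = ∑ m_i Z_i` of dimension `2` on
`W × V` all of whose components dominate `W` and `V` is the same as a finite integral combination
`c = ∑ c(σ) σ` of embeddings `σ : ℂ(V) → Ω` over `ℂ` which is invariant under the Galois group of `Ω`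
over `ℂ(W)`: `Z_i` is an orbit of embeddings with the coefficient `m_i`. The theorem is about all `c`; no
invariance is needed. `[Z]^* = 0` on `H^{2,0}(V)` means that `∑ c(σ) σ^* ω = 0` for all regular
canonical forms `ω` on `V` (`NullTrace`, `Pool/Agent/R882/ZC.lean`).

The theorem: suppose that `[Z]^* = 0` on `H^{2,0}(V)`, and that, for all `k` with `1 ≤ k < b`, there are
at most `M + 1` points of `V 1` over which there are at least `k` points of `Z` (`pointsBelow`), where the
Fine interior contains `k` rows of width `M`. Then `c(σ) = c(τ)` for all `σ`, `τ` with the same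
restriction to `ℂ(V 1)`, that is, `Z` is the pullback of a cycle on `W × V 1`. For instance, it is enough
that `Z` has at most `s` points over a general point of `W`, `s ≤ k (M + 1)`. Nothing is assumed about the
signs of the coefficients.

Examples. `V` is a nondegenerate surface in `S × P^1`, for a toric surface `S` with the polygon `P`, with
the Newton polytope `d P × [0, b]`, and `V 1 = S`: here `M` is the largest number such that the Fine interior
of `d P` contains `u` and `u + M e_1`, `u + M e_2`; for surfaces of bidegree `(d, b)` in `P^2 × P^1`, `M = d - 3`,
and the theorem is about all the cycles with at most `d - 2` points. The geometric genus of `V` is not bounded.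
For surfaces in projective line bundles over toric surfaces the width `M` of `k` rows depends on `k`.

This is the open direction of the question for all these correspondences, `W = V = X` (`[Γ]_*^{2,0} = 0` if
and only if `[Γ]^* = 0` on `H^{2,0}`, by duality and complex conjugation). If `CH_0(V 1) = ℤ`, for instance
if `V 1` is rational, then the cycle `Γ_*(w)`, the pullback of a cycle on `V 1`, has a constant class, so
`Γ_*` is zero on all cycles of degree zero (standard, not formalised here). The components of a cycle
which do not dominate both factors have no effect on `H^{2,0}`, and act by zero on the kernel of the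
Albanese map, because they factor through a curve.

Proof: by interpolation on the points of `V 1` below `Z`, the forms `t ^ a x ^ (j v) ω`, `j < k`,
`|a| ≤ M`, show that the points of `Z` over one point of `V 1` satisfy the relations with the powers
`0, ..., k - 1` of `x ^ v`, so there are at least `k + 1` of them; by induction on `k` all fibres of `Z` over
`V 1` are full. The relations with `b - 1` powers have a space of solutions of dimension one, which is
given by the full fibre, because the traces of the forms to `V 1` are zero.

`K` is the function field of `V` and `x` its generic point. `GenusZero`: all canonical forms which are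
regular at all prime divisors of all models are zero (`Pool/Agent/R882/HT.lean`).
-/

set_option autoImplicit false
set_option linter.overlappingInstances false

open FF Module Pool.Agent Pool.Agent.W602.GT
open Pool.Agent.R882.HT (GenusZero Nondegenerate IsTorusPoint)
open Pool.Agent.R882.ZC (NullTrace)
open Pool.Agent.T6.H17.BC (Rows)

namespace Pool.Agent.Results.MP_31564d_ag.NullTraceTorus

/-- The number of the points `g` of the base, with the coordinates `t l`, over which there are at
least `k` embeddings which occur in `c`. -/
noncomputable def pointsBelow {N : ℕ} {K Ω : Type} [Field K] [Algebra ℂ K] [Field Ω]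
    [Algebra ℂ Ω] (t : Fin N → K) (c : (K →ₐ[ℂ] Ω) →₀ ℤ) (k : ℕ) : ℕ :=
  Set.ncard {g : Fin N → Ω | k ≤ Set.ncard {σ : K →ₐ[ℂ] Ω | c σ ≠ 0 ∧ ∀ l, σ (t l) = g l}}

/-- **Cycles with null trace.** Let `V` be a component, of dimension `2`, with function field `K` and
generic point `x`, of a nondegenerate complete intersection in a torus, and let `t l = x ^ (w l)` be
monomials such that `K = ℂ(t)(x ^ v)` is a finite extension of `ℂ(t)`, where `ℂ(t)` has geometric genus
zero. Let `c` be an integral combination of embeddings of `K` in an algebraically closed field of
transcendence degree `2`. Suppose that `c` has null trace and that, for all `k` which are less than the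
degree, there are at most `M + 1` points of the base over which `c` has at least `k` points, where the
Fine interior contains `k` rows of width `M`. Then `c` is pulled back from the base. -/
theorem result {q N : ℕ} {f : Fin q → (Fin (2 + q) → ℤ) →₀ ℂ} (nondeg : Nondegenerate f)
    {K : Type} [Field K] [Algebra ℂ K] (hK : Algebra.trdeg ℂ K = 2) {x : Fin (2 + q) → K}
    (point : IsTorusPoint f x) {v : Fin (2 + q) → ℤ} {w : Fin N → Fin (2 + q) → ℤ}
    {t : Fin N → K} (mono : ∀ l, t l = R885.mono x (w l))
    [FiniteDimensional (IntermediateField.adjoin ℂ (Set.range t)) K]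
    (prim : IntermediateField.adjoin (IntermediateField.adjoin ℂ (Set.range t))
      {R885.mono x v} = ⊤)
    (base : GenusZero (IntermediateField.adjoin ℂ (Set.range t)) 2)
    {Ω : Type} [Field Ω] [Algebra ℂ Ω] [IsAlgClosed Ω] (hΩ : Algebra.trdeg ℂ Ω = 2)
    (c : (K →ₐ[ℂ] Ω) →₀ ℤ) (hc : NullTrace 2 c)
    (rows : ∀ k, 1 ≤ k → k < Module.finrank (IntermediateField.adjoin ℂ (Set.range t)) K →
      ∃ M, pointsBelow t c k ≤ M + 1 ∧ Rows f v w k M)
    (σ τ : K →ₐ[ℂ] Ω) (h : ∀ l, σ (t l) = τ (t l)) : c σ = c τ := by
  classical
  refine Pool.Agent.T6.H17.BC.torus_step (n := 2) (by rw [hΩ]; rfl) nondeg point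
    (by rw [hK]; rfl) mono prim hc (Or.inl base) (fun k hk1 hk => ?_) h
  obtain ⟨M, hM, hr⟩ := rows k hk1 hk
  refine ⟨M, hr, le_trans (le_of_eq ?_) hM⟩
  unfold pointsBelow
  rw [← Set.ncard_coe_finset]
  congr 1
  ext g
  rw [Finset.mem_coe, Finset.mem_filter, Set.mem_ofPred_eq]
  have h1 : {σ : K →ₐ[ℂ] Ω | c σ ≠ 0 ∧ ∀ l, σ (t l) = g l} =
      ((c.support.filter fun ρ => (fun l => ρ (t l)) = g : Finset (K →ₐ[ℂ] Ω)) :
        Set (K →ₐ[ℂ] Ω)) := by
    ext ρ
    rw [Finset.coe_filter, Set.mem_ofPred_eq, Set.mem_ofPred_eq, Finsupp.mem_support_iff,
      funext_iff]
  rw [h1, Set.ncard_coe_finset]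
  constructor
  · intro h2
    exact h2.2
  · intro h2
    refine ⟨?_, h2⟩
    obtain ⟨ρ, hρ⟩ := Finset.card_pos.1 (lt_of_lt_of_le hk1 h2)
    obtain ⟨hρ1, hρ2⟩ := Finset.mem_filter.1 hρ
    exact Finset.mem_image.2 ⟨ρ, hρ1, hρ2⟩

end Pool.Agent.Results.MP_31564d_ag.NullTraceTorus
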