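import Pool.Agent.T6.H17.BC.Torus

/-!
# Bloch's conjecture for correspondences on surfaces: towers of Newton-nondegenerate surfaces, cycles with signs

Let `V 0 ⇢ V 1 ⇢ ... ⇢ V k` be a tower (`CycleTower`, `Pool/Agent/T6/H17/BC/Torus.lean`) of surfaces, where `V k`
is any surface with a property `Base`, and each `V i`, `i < k`, is birational to a component of a complete
intersection, of any codimension `q`, in the torus `(ℂ^*) ^ (2 + q)`, nondegenerate for the Newton polytopes,
and `V (i + 1)` is birational to its image under some monomials `t l = x ^ (w l)`, with
`ℂ(V i) = ℂ(V (i + 1))(x ^ v)` of degree `b i` over `ℂ(V (i + 1))`. (For instance a triangular system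
`F 1 (t, y 1) = 0`, ..., `F k (t, y 1, ..., y k) = 0` such that the first `i` equations are nondegenerate for
all `i`; here `V k` is rational.) It is assumed that for all `j` with `1 ≤ j < b i` the Fine interior of the
Minkowski sum of the Newton polytopes of `V i` contains `j` rows of width `M`, with `s i ≤ j (M + 1)`
(`Rows`), where `s i = s / (b 0 ⋯ b (i - 1))`, and one of the following holds for each `i < k`: `p_g(V (i + 1)) = 0`,
or `ℂ(V i)` contains no quadratic extension of `ℂ(V (i + 1))` (for instance `b i` is odd, or `b i > 2` and
the Galois group of `ℂ(V i)` over `ℂ(V (i + 1))` is the symmetric group), or `Z` below is effective.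

Let `W` be any variety of dimension `2` and `Ω` an algebraically closed field of transcendence degree
`2` over `ℂ` which contains the function field of `W`. A cycle `Z = ∑ m_i Z_i` of dimension `2` on
`W × V`, `V = V 0`, all of whose components dominate `W` and `V` is the same as a finite integral
combination `c = ∑ c(σ) σ` of embeddings `σ : ℂ(V) → Ω` over `ℂ` which is invariant under the Galois
group of `Ω` over `ℂ(W)`: `Z_i` is an orbit of embeddings with the coefficient `m_i`. The theorem is about
all `c`, with coefficients of any signs; no invariance is needed. `[Z]^* = 0` on `H^{2,0}(V)` means that
`∑ c(σ) σ^* ω = 0` for all regular canonical forms `ω` on `V` (`NullTrace`, `Pool/Agent/R882/ZC.lean`).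

The theorem: suppose that `[Z]^* = 0` on `H^{2,0}(V)`, and that the above holds for the number `s` of
the different points of `V` over a general point of `W` (the number of the `σ` with `c(σ) ≠ 0`). Then `Z` is
the pullback of a cycle on `W × V'` for a surface `V'` with the property `Base` which is dominated by `V`:
`c(σ) = c(τ)` for all `σ`, `τ` with the same restriction to `ℂ(V')` (`PulledBack`, `Pool/Agent/R882/ZD.lean`).

This is the open direction of the question for all these correspondences, `W = V = X` (`[Γ]_*^{2,0} = 0` if
and only if `[Γ]^* = 0` on `H^{2,0}`, by duality and complex conjugation): let `Base` be unirationality,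
or `CH_0(V') = ℤ`. Then the cycle `Γ_*(w)`, the pullback of a cycle on `V'`, has a constant class, so
`Γ_*` is zero on all cycles of degree zero (standard, not formalised here). The components of a cycle
which do not dominate both factors have no effect on `H^{2,0}`, and act by zero on the kernel of the
Albanese map.

Proof: as for `NullTraceTorus` of this problem, all the fibres of `Z` over `V (i + 1)` are full, and on
a fibre the relations have a space of solutions of dimension one. The Galois group of `Ω` over
`ℂ(V (i + 1))` permutes the points of the fibre transitively and the space of solutions, so the absolute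
values of the coefficients are equal; if there are two signs then `g F'(y)`, where `g` is the value of the
form on vector fields of `V (i + 1)` and `F` the minimal polynomial of `y = x ^ v`, has two conjugates,
and generates a quadratic extension. The null trace passes to the cycle on `W × V (i + 1)`.
-/

set_option autoImplicit false
set_option linter.overlappingInstances false

open FF Module Pool.Agent Pool.Agent.W602.GT
open Pool.Agent.R882.ZC (NullTrace PulledBack)
open Pool.Agent.T6.H17.BC (CycleTower)

namespace Pool.Agent.Results.MP_31564d_ag.SignedTorusTowers

/-- **Cycles with null trace and towers.** Let `c` be an integral combination of embeddings of `K` in an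
algebraically closed field of transcendence degree `2`, where `K` is the function field of the first
surface of a tower of nondegenerate complete intersections in tori over a surface with the property
`Base`, for the number of the embeddings which occur in `c`. If `c` has null trace then it is pulled back
from a surface with the property `Base`. -/
theorem result {Base : ∀ (E : Type) [Field E] [Algebra ℂ E], Prop}
    {K : Type} [Field K] [Algebra ℂ K] (hK : Algebra.trdeg ℂ K = 2)
    {Ω : Type} [Field Ω] [Algebra ℂ Ω] [IsAlgClosed Ω] (hΩ : Algebra.trdeg ℂ Ω = 2)
    (c : (K →ₐ[ℂ] Ω) →₀ ℤ) (hc : NullTrace 2 c)
    (tower : CycleTower 2 Base (∀ σ, 0 ≤ c σ) K c.support.card) : PulledBack Base c :=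
  Pool.Agent.T6.H17.BC.torus_tower tower (by rw [hΩ]; rfl) (by rw [hK]; rfl) c (fun h => h) hc
    le_rfl

end Pool.Agent.Results.MP_31564d_ag.SignedTorusTowers
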