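import Pool.Agent.T6.H15.BC.More

/-!
# Bloch's conjecture for correspondences from varieties dominated by products of curves

Let `𝒱` be a class of smooth proper (e.g. projective) varieties over a field `k` (e.g. the complex
numbers) which is closed under products, with Chow groups `C` (rational coefficients), a Weil
cohomology theory `W` and Abel–Jacobi maps `A` (`AJTheory` in `Pool/Agent/T6/H15/AJ/Defs.lean`). The
only property of `k` that is used is that zero-cycles on products are sums of external products of
zero-cycles (`PointsArePairs`), which is true over algebraically closed fields. Let `X` be a surface.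

(1) The following are equivalent:
* Bloch's conjecture (the open direction) for the correspondences `Γ` in `CH^2(Y × X)`, for all
  surfaces `Y` which are dominated by products of curves: if `Γ` acts as zero on the holomorphic
  `2`-forms, that is if `Γ` acts on `H^2(Y)` as a sum of products of divisors, then `Γ_* t = 0` for `t` in
  the kernel of the Albanese map of `Y`;
* homologically trivial `Γ` in `CH^2((E × E') × X)` kill `y × y'` for all curves `E`, `E'` and `y`, `y'` of
  degree zero;
* homologically trivial `Γ` in `CH^2(Y × X)` kill the kernel of the Abel–Jacobi map on the
  zero-cycles of `Y`, for all `Y` of any dimension which are dominated by products of curves;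
* the algebraically trivial classes `δ` in `CH^2(E × X)`, `E` a curve, which are in the kernel of the
  Abel–Jacobi map, kill the zero-cycles of degree zero on `E`;
* the same for `δ` in `CH^c(Y × X)`, `Y` any variety, and the algebraically trivial classes in
  `CH^n(Y)`, where `n + c = dim Y + 2`;
* `f_* (D D' z) = 0` for all morphisms `f : V → X`, `dim V = 4`, algebraically trivial divisor classes
  `D` and `D'` and homologically trivial `z` in `CH^2(V)`;
* `f_* (x y z) = 0` for all `f : V → X`, algebraically trivial `x` and `y` and homologically trivial `z`
  whose codimensions add up to `dim V`.

(2) If all homologically trivial classes `δ` in `CH^2(E × X)`, `E` a curve, in the kernel of the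
Abel–Jacobi map kill the zero-cycles of degree zero on `E`, then the homologically trivial
correspondences from ANY variety `Y` to `X` kill the algebraically trivial classes in the kernel of
the Abel–Jacobi map (with values in the zero-cycles on `X`); in particular homologically trivial `Γ`
in `CH^2(Y × X)` kill the kernel of the Albanese map of `Y`.

(3) Bloch's conjecture (the open direction) for all `Γ` in `CH^2(Y × X)`, where the surfaces `Y` and
`X` are dominated by a product of curves and by a product of two curves, is equivalent to: for all
curves `E₁`, `E₂`, `E₃` the algebraically trivial one-cycles on `E₁ × E₂ × E₃` in the kernel of the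
Abel–Jacobi map kill the zero-cycles of degree zero on `E₁`.
-/

open Pool.Agent.H914 Pool.Agent.R903 Pool.Agent.T6.H15.AJ Pool.Agent.T6.H15.BC

universe u v w

namespace Pool.Agent.Results.MP_31564d_ag.SourcesDominatedByCurves

theorem result {k : Type u} [Field k] {𝒱 : VarClass k} {C : ChowTheory.{u, v} 𝒱}
    (hC : C.Polarized) (hP : PointsArePairs C) {W : WeilTheory.{u, v, w} C} (A : AJTheory W) :
    (∀ X : 𝒱.Obj, X.dim = 2 →
      [ BlochFor A X, PairsFor W X, ZeroCyclesFor A X, AlgKernelFor A X, AlgKernelAll A X,
        DivisorsFor W X, TriplesFor W X ].TFAE) ∧
    (∀ X : 𝒱.Obj, HomKernelFor A X → AllSourcesFor A X) ∧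
    (BlochTwo A ↔ ThreeCurves A) :=
  ⟨fun X hX => main_tfae A hC hP X hX, fun _ h => all_sources A hC h, three_curves A hC hP⟩

end Pool.Agent.Results.MP_31564d_ag.SourcesDominatedByCurves
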